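import Mathlib
import Pool.Agent.J4.H38.GD.Sharp

/-!
# Almost prime tuples with short shifts in EVERY set of primes

The problem asks for the number of the `m ≤ x` such that `m` and all `m + d`, `d ∈ D`, are prime, uniformly for the sets `D` of `k`
short shifts. Here `m` is a prime from an ARBITRARY set `P` of primes `p ≤ x`. For almost all sets `D` of `k` elements of `[1, H]`, where `H`
is only a large multiple of `log x`, the number of the `p` in `P` for which ALL the `p + d`, `d ∈ D`, have at most two prime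
factors is at least the expected number up to an absolute constant factor `c ^ k` and up to `ε x / (log x) ^ (k + 1)`: the only
obstructions are the residues of `P` modulo one fixed number `W = W(k, ε)`. As a consequence, for every set `P` of a proportion `δ` of the
primes `≤ x` at least `c' (H / log log (16 / δ)) ^ k` of these sets `D` have at least `c' #P / (log x) ^ k` such `p` in `P`. (For the primes in
one residue class modulo all small primes this is best possible up to `c'`.) The exceptional sets `D` depend on `P`, the bound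
`x₀` does not.

Method: for almost all shifts the integers `p + d`, `p ∈ P`, are as often free of small prime factors as they should be: in each residue
class modulo `W` this follows by duality from the pair correlations of the sifted sets `{n : n + d without small prime factors}`
relative to ALL primes, which are nearly orthogonal. Then Richert's weighted sieve of level `111/200 > 1/2` and the large
sieve inequality for the shifts (`Pool.Agent.J4.H38.SR3.Fx`), for an arbitrary bounded weight in place of the primes. The second part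
needs a second moment and high moments of the singular series.
-/

set_option autoImplicit false

namespace Pool.Agent.Results.MP_485179_nt.ArbitraryPrimes

open Finset Filter

/-- the multiples of `W` in `[1, H]` -/
def multiples (W H : ℕ) : Finset ℕ := (Icc 1 H).filter (fun d => W ∣ d)

open Classical in
/-- the number of the `p` in `P` such that every `p + d`, `d ∈ D`, has at most two prime factors (counted with
multiplicity), all of them at least `x ^ (1/7)` -/
noncomputable def count (x : ℕ) (P D : Finset ℕ) : ℕ :=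
  (P.filter (fun p => ∀ d ∈ D, (p + d).primeFactorsList.length ≤ 2 ∧
    ∀ q ∈ (p + d).primeFactors, (x : ℝ) ^ (1 / 7 : ℝ) ≤ q)).card

open Classical in
/-- the number of the `p` in `P` such that every `p + d`, `d ∈ D`, is prime to `W` -/
noncomputable def prime_to (W : ℕ) (P D : Finset ℕ) : ℕ := (P.filter (fun p => ∀ d ∈ D, (p + d).Coprime W)).card

section
open Pool.Agent.J4.H38.DV
open Pool.Agent.J4.H38.GD
open Pool.Agent.Y822
open Pool.Agent.H373R2.T7 (pz Vz mem_pz)

lemma cmpT_eq (w : ℕ) (P D : Finset ℕ) : cmpT w P D = prime_to (∏ p ∈ pz w, p) P D := by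
  classical
  unfold cmpT prime_to
  refine congrArg card (filter_congr fun p _ => ?_)
  exact ⟨fun h t ht => (Ro_iff w _).1 (h t ht), fun h t ht => (Ro_iff w _).2 (h t ht)⟩

/-- the product of the primes up to `w` -/
lemma W_pos (w : ℕ) : 1 ≤ ∏ p ∈ pz w, p := prod_pos fun _ hp => (mem_pz.1 hp).2.pos

lemma multiples_eq (w H : ℕ) : multiples (∏ p ∈ pz w, p) H = AW w 0 H := by
  unfold multiples AW
  refine filter_congr fun t _ => ?_
  rw [zero_add]

/-- the number of the multiples -/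
lemma card_multiples {W : ℕ} (hW : 1 ≤ W) (H : ℕ) :
    ((multiples W H).card : ℝ) ≤ H / W ∧ (H : ℝ) / W - 1 ≤ (multiples W H).card := by
  have hWr : (0 : ℝ) < W := by exact_mod_cast hW
  have h1 : (multiples W H).card = H / W := by
    unfold multiples
    rw [← Nat.Ioc_filter_dvd_card_eq_div H W]
    rfl
  have h3 : (H : ℝ) / W ≤ ((H / W : ℕ) : ℝ) + 1 := by
    rw [div_le_iff₀ hWr]
    have := Nat.lt_div_mul_add (a := H) hW
    have h4 : (H : ℝ) ≤ ((H / W * W + W : ℕ) : ℝ) := by exact_mod_cast this.le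
    push_cast at h4
    linarith
  rw [h1]
  exact ⟨Nat.cast_div_le, by linarith⟩

/-- the main theorem for sets of multiples -/
lemma core : ∃ c : ℝ, 0 < c ∧ ∀ k : ℕ, 1 ≤ k → ∀ δ ε : ℝ, 0 < δ → 0 < ε → ∃ (W : ℕ) (Λ : ℝ) (x₀ : ℕ), 1 ≤ W ∧
    2 ∣ W ∧ 0 < Λ ∧ ∀ x : ℕ, x₀ ≤ x → ∀ P ⊆ (Icc 1 x).filter Nat.Prime, δ * (x / Real.log x) ≤ P.card →
    ∀ H : ℕ, Λ * Real.log x ≤ H → H ≤ x → ∀ Bad : Finset (Finset ℕ),
    (∀ D ∈ Bad, D ∈ (multiples W H).powersetCard k ∧ (count x P D : ℝ) < c ^ k * (P.card / Real.log x ^ k)) →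
    (Bad.card : ℝ) ≤ ε * ((multiples W H).card : ℝ) ^ k := by
  classical
  obtain ⟨c, hc, hmain⟩ := denseT
  refine ⟨c, hc, fun k hk δ ε hδ hε => ?_⟩
  obtain ⟨j, rfl⟩ : ∃ j, k = j + 1 := ⟨k - 1, by omega⟩
  obtain ⟨w, hw, Λ, hΛ, h⟩ := hmain j δ ε hδ hε
  obtain ⟨N₀, hN₀⟩ := eventually_atTop.1 h
  refine ⟨∏ p ∈ pz w, p, Λ, N₀, W_pos w, dvd_prod_of_mem _ (mem_pz.2 ⟨hw, Nat.prime_two⟩), hΛ,
    fun x hx P hP hPc H hH1 hH2 Bad hBad => ?_⟩
  rw [multiples_eq] at hBad ⊢
  exact hN₀ x hx H hH1 hH2 P hP hPc Bad hBad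

end

open Classical in
/-- **Every set of primes.**

(1) There is an absolute constant `c > 0` such that for all `k ≥ 1` and `ε > 0` there are `W ≥ 1`, `Λ` and `x₀` such that for all
`x ≥ x₀`, ANY set `P` of primes `p ≤ x` and all `H` with `Λ log x ≤ H ≤ x`, for all but at most `ε (φ(W) H / W) ^ k` of the sets `D` of `k`
elements of `[1, H]` the number of the primes `p` in `P` such that all the `p + d`, `d ∈ D`, have at most two prime factors, all of
them at least `x ^ (1/7)`, is at least `c ^ k / (log x) ^ k` times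
`(W / φ(W)) ^ k #{p ∈ P : all p + d are prime to W} - ε x / log x`.

(2) For every `k ≥ 1` there is `c' > 0` such that for all `0 < δ ≤ 1` there are `Λ` and `x₀` such that for all `x ≥ x₀`, ANY set `P` of
at least `δ x / log x` primes `p ≤ x` and all `H` with `Λ log x ≤ H ≤ x`, at least `c' (H / log log (16 / δ)) ^ k` of the sets `D`
of `k` elements of `[1, H]` have the property that there are at least `c' #P / (log x) ^ k` primes `p` in `P` such that all the
`p + d`, `d ∈ D`, have at most two prime factors, all of them at least `x ^ (1/7)`.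

(3) For the multiples of a fixed `W` there are even fewer exceptions, relative to their number: for all `k ≥ 1` and `δ, ε > 0` there
are an even `W`, `Λ` and `x₀` such that for all these `x`, `P`, `H` for all but at most `ε (H / W) ^ k` of the sets `D` of `k` multiples of
`W` in `[1, H]` there are at least `c ^ k #P / (log x) ^ k` such primes `p` in `P`. -/
theorem result :
    (∃ c : ℝ, 0 < c ∧ ∀ k : ℕ, 1 ≤ k → ∀ ε : ℝ, 0 < ε → ∃ (W : ℕ) (Λ : ℝ) (x₀ : ℕ), 1 ≤ W ∧ 0 < Λ ∧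
      ∀ x : ℕ, x₀ ≤ x → ∀ P ⊆ (Icc 1 x).filter Nat.Prime, ∀ H : ℕ, Λ * Real.log x ≤ H → H ≤ x →
        ((((Icc 1 H).powersetCard k).filter (fun D => (count x P D : ℝ) <
          c ^ k * ((((W : ℝ) / W.totient) ^ k * prime_to W P D - ε * (x / Real.log x)) / Real.log x ^ k))).card : ℝ) ≤
          ε * ((W.totient : ℝ) / W * H) ^ k) ∧
    (∀ k : ℕ, 1 ≤ k → ∃ c' : ℝ, 0 < c' ∧ ∀ δ : ℝ, 0 < δ → δ ≤ 1 → ∃ (Λ : ℝ) (x₀ : ℕ), 0 < Λ ∧
      ∀ x : ℕ, x₀ ≤ x → ∀ P ⊆ (Icc 1 x).filter Nat.Prime, δ * (x / Real.log x) ≤ P.card →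
      ∀ H : ℕ, Λ * Real.log x ≤ H → H ≤ x →
        c' * (H / Real.log (Real.log (16 / δ))) ^ k ≤ ((((Icc 1 H).powersetCard k).filter (fun D =>
          c' * (P.card / Real.log x ^ k) ≤ count x P D)).card : ℝ)) ∧
    ∃ c : ℝ, 0 < c ∧ ∀ k : ℕ, 1 ≤ k → ∀ δ ε : ℝ, 0 < δ → 0 < ε → ∃ (W : ℕ) (Λ : ℝ) (x₀ : ℕ), 1 ≤ W ∧ 2 ∣ W ∧ 0 < Λ ∧
      ∀ x : ℕ, x₀ ≤ x → ∀ P ⊆ (Icc 1 x).filter Nat.Prime, δ * (x / Real.log x) ≤ P.card →
      ∀ H : ℕ, Λ * Real.log x ≤ H → H ≤ x →
        ((((multiples W H).powersetCard k).filter (fun D =>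
          (count x P D : ℝ) < c ^ k * (P.card / Real.log x ^ k))).card : ℝ) ≤ ε * ((H : ℝ) / W) ^ k := by
  classical
  obtain ⟨c, hc, hmain⟩ := Pool.Agent.J4.H38.GD.anyT
  have hlim : Tendsto (fun N : ℕ => Real.log (N : ℝ)) atTop atTop :=
    Real.tendsto_log_atTop.comp (tendsto_natCast_atTop_atTop (R := ℝ))
  obtain ⟨cD, hcD, hmainD⟩ := core
  obtain ⟨N₁, hN₁⟩ := eventually_atTop.1 (hlim.eventually_ge_atTop 1)
  refine ⟨⟨c, hc, fun k hk ε hε => ?_⟩, fun k hk => ?_, cD, hcD, fun k hk δ ε hδ hε => ?_⟩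
  · obtain ⟨j, rfl⟩ : ∃ j, k = j + 1 := ⟨k - 1, by omega⟩
    obtain ⟨w, hw, Λ, hΛ, h⟩ := hmain j ε hε
    obtain ⟨N₀, hN₀⟩ := eventually_atTop.1 h
    have hv := Pool.Agent.J4.H38.SR.Vz_pos' w
    have hW1 : 1 ≤ ∏ p ∈ Pool.Agent.H373R2.T7.pz w, p :=
      prod_pos fun _ hp => (Pool.Agent.H373R2.T7.mem_pz.1 hp).2.pos
    have htot := Pool.Agent.J4.H38.GD.totient_prod w
    refine ⟨∏ p ∈ Pool.Agent.H373R2.T7.pz w, p, Λ, N₀, hW1, hΛ, fun N hN P hP H hH1 hH2 => ?_⟩
    have hWr : (0 : ℝ) < ((∏ p ∈ Pool.Agent.H373R2.T7.pz w, p : ℕ) : ℝ) := by exact_mod_cast hW1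
    have e1 : ((∏ p ∈ Pool.Agent.H373R2.T7.pz w, p : ℕ) : ℝ) / ((∏ p ∈ Pool.Agent.H373R2.T7.pz w, p : ℕ).totient : ℝ) =
        1 / Pool.Agent.H373R2.T7.Vz w := by
      rw [htot]
      field_simp
    have e2 : ((∏ p ∈ Pool.Agent.H373R2.T7.pz w, p : ℕ).totient : ℝ) / ((∏ p ∈ Pool.Agent.H373R2.T7.pz w, p : ℕ) : ℝ) =
        Pool.Agent.H373R2.T7.Vz w := by
      rw [htot]
      field_simp
    rw [e1, e2]
    refine hN₀ N hN H hH1 hH2 P hP _ fun D hD => ?_
    rw [mem_filter] at hD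
    refine ⟨hD.1, ?_⟩
    rw [cmpT_eq]
    exact hD.2
  · obtain ⟨cs, hcs, hS⟩ := Pool.Agent.J4.H38.GD.sharp k hk
    obtain ⟨j, rfl⟩ : ∃ j, k = j + 1 := ⟨k - 1, by omega⟩
    refine ⟨min (cs / 2) ((c / 2) ^ (j + 1) / 4), lt_min (by positivity) (by positivity), fun δ hδ hδ1 => ?_⟩
    have hll := Pool.Agent.J4.H38.GD.one_lt_loglog hδ hδ1
    obtain ⟨ll, hld⟩ : ∃ ll : ℝ, ll = Real.log (Real.log (16 / δ)) := ⟨_, rfl⟩
    rw [← hld] at hll
    have hll0 : 0 < ll := by linarith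
    obtain ⟨ε, hεd⟩ : ∃ ε : ℝ, ε = min (δ / (4 * 2 ^ (j + 1))) (cs / (2 * ll ^ (j + 1))) := ⟨_, rfl⟩
    have hε : 0 < ε := by rw [hεd]; exact lt_min (by positivity) (by positivity)
    have hε1 : ε ≤ δ / (4 * 2 ^ (j + 1)) := by rw [hεd]; exact min_le_left _ _
    have hε2 : ε ≤ cs / (2 * ll ^ (j + 1)) := by rw [hεd]; exact min_le_right _ _
    obtain ⟨w, hw, Λ, hΛ, h⟩ := hmain j ε hε
    obtain ⟨N₀, hN₀⟩ := eventually_atTop.1 h
    obtain ⟨N₃, hN₃⟩ := hS δ hδ hδ1 w hw
    obtain ⟨N₂, hN₂⟩ := eventually_atTop.1 (hlim.eventually_ge_atTop 1)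
    have hv := Pool.Agent.J4.H38.SR.Vz_pos' w
    have hv1 := Pool.Agent.J4.H38.GD.Vz_le_one w
    refine ⟨max Λ N₃, max (max N₀ N₃) N₂, lt_max_of_lt_left hΛ, fun N hN P hP hPc H hH1 hH2 => ?_⟩
    have hL1 := hN₂ N ((le_max_right _ _).trans hN)
    have hL0 : 0 < Real.log N := by linarith
    have hHΛ : Λ * Real.log N ≤ H := (mul_le_mul_of_nonneg_right (le_max_left _ _) hL0.le).trans hH1
    have hHN : N₃ ≤ H := by
      have h1 : (N₃ : ℝ) ≤ H := by
        calc (N₃ : ℝ) = N₃ * 1 := (mul_one _).symm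
          _ ≤ N₃ * Real.log N := mul_le_mul_of_nonneg_left hL1 (Nat.cast_nonneg _)
          _ ≤ max Λ N₃ * Real.log N := mul_le_mul_of_nonneg_right (le_max_right _ _) hL0.le
          _ ≤ H := hH1
      exact_mod_cast h1
    have hs := hN₃ N H ((le_max_right _ _).trans ((le_max_left _ _).trans hN)) hHN P hP hPc (fun p => p)
      fun p _ q _ => Or.inl rfl
    rw [← hld] at hs ⊢
    obtain ⟨S1, hS1⟩ : ∃ S1, S1 = ((Icc 1 H).powersetCard (j + 1)).filter (fun D =>
      1 / 2 * (1 / 2 * Pool.Agent.H373R2.T7.Vz w) ^ (j + 1) * (P.card : ℝ) ≤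
        ((P.filter (fun p => ∀ t ∈ D, Pool.Agent.Y822.Ro w (p + t))).card : ℝ)) := ⟨_, rfl⟩
    rw [← hS1] at hs
    obtain ⟨B, hB⟩ : ∃ B, B = ((Icc 1 H).powersetCard (j + 1)).filter (fun D =>
      (count N P D : ℝ) < c ^ (j + 1) * (((1 / Pool.Agent.H373R2.T7.Vz w) ^ (j + 1) *
        Pool.Agent.J4.H38.GD.cmpT w P D - ε * (N / Real.log N)) / Real.log N ^ (j + 1))) := ⟨_, rfl⟩
    have hBc := hN₀ N ((le_max_left _ _).trans ((le_max_left _ _).trans hN)) H hHΛ hH2 P hP B
      fun D hD => by rw [hB, mem_filter] at hD; exact hD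
    have hH0 : (0 : ℝ) ≤ H := Nat.cast_nonneg _
    have hBc2 : (B.card : ℝ) ≤ cs / 2 * (H / ll) ^ (j + 1) := by
      refine hBc.trans ?_
      have h1 : (Pool.Agent.H373R2.T7.Vz w * H) ^ (j + 1) ≤ (H : ℝ) ^ (j + 1) :=
        pow_le_pow_left₀ (by positivity) (by nlinarith) _
      calc ε * (Pool.Agent.H373R2.T7.Vz w * H) ^ (j + 1) ≤ cs / (2 * ll ^ (j + 1)) * (H : ℝ) ^ (j + 1) :=
            mul_le_mul hε2 h1 (by positivity) (by positivity)
        _ = _ := by rw [div_pow]; field_simp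
    obtain ⟨F, hF⟩ : ∃ F : Finset (Finset ℕ), F = ((Icc 1 H).powersetCard (j + 1)).filter (fun D =>
          min (cs / 2) ((c / 2) ^ (j + 1) / 4) * (P.card / Real.log N ^ (j + 1)) ≤ count N P D) := ⟨_, rfl⟩
    rw [← hF]
    have hsub : S1 \ B ⊆ F := by
      intro D hD
      rw [Finset.mem_sdiff] at hD
      obtain ⟨h1, h2⟩ := hD
      rw [hS1, mem_filter] at h1
      rw [hF, mem_filter]
      refine ⟨h1.1, ?_⟩
      have h3 : ¬ (count N P D : ℝ) < c ^ (j + 1) * (((1 / Pool.Agent.H373R2.T7.Vz w) ^ (j + 1) *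
        Pool.Agent.J4.H38.GD.cmpT w P D - ε * (N / Real.log N)) / Real.log N ^ (j + 1)) := fun h4 =>
        h2 (by rw [hB, mem_filter]; exact ⟨h1.1, h4⟩)
      have h6 := Pool.Agent.J4.H38.GD.calcS (k := j + 1) (c0 := c) (v := Pool.Agent.H373R2.T7.Vz w)
        (q := (Pool.Agent.J4.H38.GD.cmpT w P D : ℝ)) (Pc := (P.card : ℝ)) (δ := δ) (ε := ε) (X := N / Real.log N)
        (L := Real.log N) (C := count N P D) hv hc hL0 hδ hPc hε1 (by positivity)
        (by unfold Pool.Agent.J4.H38.GD.cmpT; exact h1.2) (not_lt.1 h3)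
      refine le_trans ?_ h6
      exact mul_le_mul_of_nonneg_right (min_le_right _ _) (by positivity)
    have h1 := card_le_card hsub
    have h2 : S1.card ≤ (S1 \ B).card + B.card := by
      have := le_card_sdiff B S1
      omega
    have h3 : (S1.card : ℝ) ≤ F.card + B.card := by exact_mod_cast h2.trans (Nat.add_le_add_right h1 _)
    have h4 : min (cs / 2) ((c / 2) ^ (j + 1) / 4) * (H / ll) ^ (j + 1) ≤ cs / 2 * (H / ll) ^ (j + 1) :=
      mul_le_mul_of_nonneg_right (min_le_left _ _) (by positivity)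
    linarith
  · obtain ⟨W, Λ, N₀, hW, hW2, hΛ, h⟩ := hmainD k hk δ (ε / 2 ^ k) hδ (by positivity)
    have hWr : (0 : ℝ) < W := by exact_mod_cast hW
    refine ⟨W, max Λ W, max N₀ N₁, hW, hW2, lt_max_of_lt_left hΛ, fun N hN P hP hPc H hH1 hH2 => ?_⟩
    have hL1 := hN₁ N ((le_max_right _ _).trans hN)
    have hHΛ : Λ * Real.log N ≤ H := (mul_le_mul_of_nonneg_right (le_max_left _ _) (by linarith)).trans hH1
    have hHW : (W : ℝ) ≤ H := by
      calc (W : ℝ) = W * 1 := (mul_one _).symm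
        _ ≤ W * Real.log N := mul_le_mul_of_nonneg_left hL1 hWr.le
        _ ≤ max Λ W * Real.log N := mul_le_mul_of_nonneg_right (le_max_right _ _) (by linarith)
        _ ≤ H := hH1
    refine (h N ((le_max_left _ _).trans hN) P hP hPc H hHΛ hH2 _ fun M hM => mem_filter.1 hM).trans ?_
    have h1 : (1 : ℝ) ≤ H / W := by rwa [le_div_iff₀ hWr, one_mul]
    have h2 := (card_multiples hW H).1
    have h3 : ((multiples W H).card : ℝ) ^ k ≤ (2 * ((H : ℝ) / W)) ^ k :=
      pow_le_pow_left₀ (Nat.cast_nonneg _) (by linarith) k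
    calc ε / 2 ^ k * ((multiples W H).card : ℝ) ^ k ≤ ε / 2 ^ k * (2 * ((H : ℝ) / W)) ^ k :=
          mul_le_mul_of_nonneg_left h3 (by positivity)
      _ = ε * ((H : ℝ) / W) ^ k := by
          rw [mul_pow]
          field_simp

end Pool.Agent.Results.MP_485179_nt.ArbitraryPrimes
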