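import Mathlib
import Pool.Agent.J4.H38.BP.TFinI

/-!
# Tuples with one fixed and one short averaged part, in arbitrary dense parts of sifted sets

The problem is about prime tuples with short shifts. Here the tuple has a FIXED part: an arbitrary admissible pattern `T0`, and the
integers `n ≤ x` for which all the `n + h`, `h ∈ T0`, are free of prime factors `≤ x ^ κ`, a sparse set of about `x / (log x) ^ m`
integers, `m = #T0`. ANY set `P` of a positive proportion of these integers is allowed, for instance the `n` for which some of the `n + h` are prime, as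
far as their number has the right order of magnitude (for `T0` of 45 elements theorems of Maynard type give two primes). Then for almost all
sets `D` of `k` shifts, multiples of a fixed number `W` in `[1, H]`, where `H` is only a large multiple of `log x`, the expected number of the `n` in `P`, up
to an absolute constant to the power `k`, is such that ALL the `n + d`, `d ∈ D`, have at most two prime factors.

Method: the set of the sifted integers is majorised by an upper bound sieve (fundamental lemma); relative to it the sets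
`{n : n + d without small prime factors}` are nearly orthogonal for almost all pairs of shifts (pair correlations), so by duality
almost all of them meet the arbitrary set `P` as often as they should. Then Richert's weighted sieve of level `111/200 > 1/2` and the large sieve
inequality for the shifts, for the weight given by `P`.
-/

set_option autoImplicit false

namespace Pool.Agent.Results.MP_485179_nt.DensePartsOfSiftedSets

open Finset Filter

/-- the multiples of `W` in `[1, H]` -/
def multiples (W H : ℕ) : Finset ℕ := (Icc 1 H).filter (fun d => W ∣ d)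

open Classical in
/-- the integers `n ≤ x` such that no `n + h`, `h ∈ T0`, has a prime factor `≤ x ^ κ` -/
noncomputable def sifted (T0 : Finset ℕ) (κ : ℝ) (x : ℕ) : Finset ℕ :=
  (Icc 1 x).filter (fun n => ∀ h ∈ T0, ∀ q : ℕ, q.Prime → (q : ℝ) ≤ (x : ℝ) ^ κ → ¬ q ∣ n + h)

open Classical in
/-- the number of the `n` in `P` such that every `n + d`, `d ∈ D`, has at most two prime factors (counted with multiplicity), all
of them at least `x ^ (1/7)` -/
noncomputable def count (x : ℕ) (P D : Finset ℕ) : ℕ :=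
  (P.filter (fun n : ℕ => ∀ d ∈ D, (n + d).primeFactorsList.length ≤ 2 ∧
    ∀ q ∈ (n + d).primeFactors, (x : ℝ) ^ (1 / 7 : ℝ) ≤ (q : ℝ))).card

section
open Pool.Agent.J4.H38.DV
open Pool.Agent.H373R2.T7 (pz Vz mem_pz)

lemma piT_eq (P D : Finset ℕ) (N : ℕ) : piT' P D N = count N P D := rfl

lemma multiples_eq (w H : ℕ) : AW w 0 H = multiples (∏ p ∈ pz w, p) H := by
  unfold AW multiples
  refine filter_congr fun t _ => ?_
  rw [zero_add]

/-- the product of the primes up to `w` -/
lemma W_pos (w : ℕ) : 1 ≤ ∏ p ∈ pz w, p := prod_pos fun _ hp => (mem_pz.1 hp).2.pos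

/-- the number of the multiples -/
lemma card_multiples (W H : ℕ) : ((multiples W H).card : ℝ) ≤ H / W := by
  have h1 : (multiples W H).card = H / W := by
    unfold multiples
    exact Nat.Ioc_filter_dvd_card_eq_div H W
  rw [h1]
  exact Nat.cast_div_le

end

/-- **Arbitrary dense parts of sifted sets.** There is an absolute constant `c > 0` with the following property. Let `T0` be a finite set of
integers `≥ 0` with `0 ∈ T0` which does not cover all residues modulo any prime, `m = #T0`. For all `k ≥ 1` and `κ, δ, ε > 0` there are an even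
`W ≥ 1`, `Λ` and `x₀` such that for all `x ≥ x₀`, EVERY set `P` of at least `δ x / (log x) ^ m` integers `n ≤ x` for which no `n + h`, `h ∈ T0`, has a
prime factor `≤ x ^ κ`, and all `H` with `Λ log x ≤ H ≤ x / 2`: for all but at most `ε (H / W) ^ k` of the sets `D` of `k` multiples of `W` in
`[1, H]` there are at least `c ^ k #P / (log x) ^ k` elements `n` of `P` such that all the `n + d`, `d ∈ D`, have at most two prime factors, all of
them at least `x ^ (1/7)`. -/
theorem result :
    ∃ c : ℝ, 0 < c ∧ ∀ T0 : Finset ℕ, 0 ∈ T0 → (∀ p : ℕ, p.Prime → ∃ a : ℕ, ∀ h ∈ T0, ¬ p ∣ a + h) →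
      ∀ k : ℕ, 1 ≤ k → ∀ κ δ ε : ℝ, 0 < κ → 0 < δ → 0 < ε → ∃ (W : ℕ) (Λ : ℝ) (x₀ : ℕ), 1 ≤ W ∧ 2 ∣ W ∧ 0 < Λ ∧
      ∀ x : ℕ, x₀ ≤ x → ∀ P ⊆ sifted T0 κ x, δ * (x / Real.log x ^ T0.card) ≤ P.card →
      ∀ H : ℕ, Λ * Real.log x ≤ H → (H : ℝ) ≤ x / 2 →
        ((((multiples W H).powersetCard k).filter (fun D =>
          (count x P D : ℝ) < c ^ k * (P.card / Real.log x ^ k))).card : ℝ) ≤ ε * ((H : ℝ) / W) ^ k := by
  classical
  obtain ⟨c, hc, hmain⟩ := Pool.Agent.J4.H38.BP.relTI
  refine ⟨c, hc, fun T0 h0 hadm k hk κ δ ε hκ hδ hε => ?_⟩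
  have hadm' : ∀ p : ℕ, p.Prime → Pool.Agent.J4.H38.SR.fT T0 p < p := by
    intro p hp
    obtain ⟨a, ha⟩ := hadm p hp
    unfold Pool.Agent.J4.H38.SR.fT
    have h1 : (range p).filter (fun r => ∃ t ∈ T0, p ∣ r + t) ⊂ range p := by
      rw [filter_ssubset]
      refine ⟨a % p, mem_range.2 (Nat.mod_lt _ hp.pos), ?_⟩
      rintro ⟨t, ht, h2⟩
      refine ha t ht ?_
      rw [Nat.dvd_iff_mod_eq_zero] at h2 ⊢
      rwa [Nat.add_mod, Nat.mod_mod, ← Nat.add_mod] at h2
    have h2 := card_lt_card h1
    rwa [card_range] at h2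
  obtain ⟨j, rfl⟩ : ∃ j, k = j + 1 := ⟨k - 1, by omega⟩
  obtain ⟨w, hw, h⟩ := hmain T0 0 h0 hadm' j δ ε κ hδ hε hκ
  obtain ⟨Λ, hΛ, h⟩ := h w le_rfl
  obtain ⟨N₀, hN₀⟩ := eventually_atTop.1 h
  refine ⟨∏ p ∈ Pool.Agent.H373R2.T7.pz w, p, Λ, N₀, W_pos w,
    dvd_prod_of_mem _ (Pool.Agent.H373R2.T7.mem_pz.2 ⟨hw, Nat.prime_two⟩), hΛ, fun x hx P hP hPc H hH1 hH => ?_⟩
  have hH2 : 2 * H ≤ x := by
    have : (2 : ℝ) * H ≤ x := by linarith
    exact_mod_cast this
  have hP1 : ∀ n ∈ P, (1 ≤ n ∧ n ≤ x) ∧ ∀ h ∈ T0, ∀ q : ℕ, q.Prime → (q : ℝ) ≤ (x : ℝ) ^ κ → ¬ q ∣ n + h := by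
    intro n hn
    have h1 := hP hn
    unfold sifted at h1
    rw [mem_filter, mem_Icc] at h1
    exact h1
  refine (hN₀ x hx H hH1 hH2 P (fun n hn => mem_Icc.2 (hP1 n hn).1) (fun n hn => ?_) hPc _ fun D hD => ?_).trans ?_
  · refine ⟨(hP1 n hn).1.1, fun h hh q hq hqN => ?_⟩
    rw [Nat.sub_zero]
    exact (hP1 n hn).2 h hh q hq hqN
  · obtain ⟨b1, b2⟩ := mem_filter.1 hD
    rw [multiples_eq, piT_eq]
    exact ⟨b1, b2⟩
  · rw [multiples_eq]
    exact mul_le_mul_of_nonneg_left (pow_le_pow_left₀ (Nat.cast_nonneg _) (card_multiples _ _) _) hε.le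

end Pool.Agent.Results.MP_485179_nt.DensePartsOfSiftedSets
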