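import Mathlib
import Pool.Agent.J4.H38.SR.Rl

/-!
# An upper bound with a constant exponential in the number of shifts, for almost all sets of short shifts

For almost all sets `D` of `k` shifts from `[1, H]` the number of `m ≤ x` with all `m + d`, `d ∈ {0} ∪ D`, prime is
at most `(4 ^ k + ε) 𝔖({0} ∪ D) x / (log x) ^ (k + 1)`, as soon as `H / log x` is large: all but
`C max (log x / H, 1 / log x) ^ c H ^ k` of the sets `D` have this property, with `c, C > 0` depending only on `k` and
`ε`.  In particular all but `O ((log x) ^ (k (k + 1) - c))` of the sets `D ⊂ [2, (log x) ^ (k + 1)]` of the problem.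

Method.  The shifts are made prime one at a time, by the upper bound sieve of dimension one with level `x^{1/2 - η}`.
The distribution of the mixed weights (a prime at `0`, sifted numbers at the other shifts) in the residue classes
`n ≡ -d` modulo rough numbers up to `x^{1/2 - η}` is controlled for almost all `d ≤ H` by Bessel's inequality in the
space weighted by the indicator of all shifts being free of prime factors `≤ x^κ`, with `κ` small; this weight has density
`≍ (log x) ^ (-k - 1)`, which makes the diagonal terms harmless already for `H ≥ Λ log x`.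
-/

set_option autoImplicit false

open Finset

namespace Pool.Agent.Results.MP_485179_nt.ExponentialConstant

/-- the number of `1 ≤ m ≤ x` for which all `m + t`, `t ∈ T`, are prime -/
noncomputable def count (x : ℝ) (T : Finset ℕ) : ℕ :=
  ((Icc 1 ⌊x⌋₊).filter (fun m => ∀ t ∈ T, (m + t).Prime)).card

/-- the number of residue classes modulo `p` occupied by `T` -/
def nu (T : Finset ℕ) (p : ℕ) : ℕ := (T.image (· % p)).card

/-- the factor at `p` of the singular series -/
noncomputable def loc (T : Finset ℕ) (p : ℕ) : ℝ :=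
  (1 - (nu T p : ℝ) / p) / (1 - 1 / (p : ℝ)) ^ T.card

/-- the singular series of `T` -/
noncomputable def 𝔖 (T : Finset ℕ) : ℝ := ∏' p : Nat.Primes, loc T p

open Classical in
/-- the `k`-element sets `D` of integers in `[1, H]` with `𝔖({0} ∪ D) ≠ 0` for which the number of the integers
`1 ≤ m ≤ x` with all `m + d`, `d ∈ {0} ∪ D`, prime is greater than `B 𝔖({0} ∪ D) x / (log x) ^ (k + 1)` -/
noncomputable def large (k : ℕ) (B x : ℝ) (H : ℕ) : Finset (Finset ℕ) :=
  ((Icc 1 H).powersetCard k).filter (fun D => 𝔖 (insert 0 D) ≠ 0 ∧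
    B * 𝔖 (insert 0 D) * (x / Real.log x ^ (k + 1)) < (count x (insert 0 D) : ℝ))

open Pool.Agent.H387R2.Uni Pool.Agent.J4.H38.SR Filter

theorem CT_eq (T : Finset ℕ) : CT T = 𝔖 T := rfl

theorem count_eq {x : ℝ} {D : Finset ℕ} : count x (insert 0 D) = Pool.Agent.Y822.piH D ⌊x⌋₊ := by
  unfold count Pool.Agent.Y822.piH
  congr 1
  apply filter_congr
  intro m _
  simp

/-- The products `𝔖 T` converge and are positive for admissible `T`.  For every `k ≥ 1` and `ε > 0` there are
`c, C > 0` and `x₀` such that for all real `x ≥ x₀` and all integers `1 ≤ H ≤ x` there are at most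
`C max (log x / H, 1 / log x) ^ c H ^ k` sets `D` of `k` integers in `[1, H]` with `𝔖({0} ∪ D) ≠ 0` and
`π_{k+1}(x, {0} ∪ D) > (4 ^ k + ε) 𝔖({0} ∪ D) x / (log x) ^ (k + 1)`. -/
theorem result :
    (∀ T : Finset ℕ, HasProd (fun p : Nat.Primes => loc T p) (𝔖 T) ∧
      ((∀ p : ℕ, p.Prime → nu T p < p) → 0 < 𝔖 T)) ∧
    ∀ k : ℕ, 1 ≤ k → ∀ ε : ℝ, 0 < ε → ∃ c C x₀ : ℝ, 0 < c ∧ 0 < C ∧ ∀ x : ℝ, x₀ ≤ x →
      ∀ H : ℕ, 1 ≤ H → (H : ℝ) ≤ x →
      ((large k (4 ^ k + ε) x H).card : ℝ) ≤
        C * (max (Real.log x / H) (1 / Real.log x)) ^ c * (H : ℝ) ^ k := by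
  classical
  refine ⟨fun T => ⟨CT_hasProd T, fun hT => CT_pos_of_adm hT⟩, fun k hk ε hε => ?_⟩
  obtain ⟨k, rfl⟩ : ∃ j, k = j + 1 := ⟨k - 1, by omega⟩
  obtain ⟨c, C, hc, hC, hmain⟩ := upper_quant k (ε / 2) (by positivity)
  obtain ⟨N₀, hN₀⟩ := eventually_atTop.1 ((hmain.and (ratio_ev (k + 2)
    (by positivity : (0 : ℝ) ≤ 4 ^ (k + 1)) hε)).and (eventually_ge_atTop 3))
  refine ⟨c, C * 2 ^ c, N₀ + 1, hc, by positivity, fun x hx H hH1 hHx => ?_⟩
  have hN₀0 : (0 : ℝ) ≤ N₀ := Nat.cast_nonneg _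
  have hx0 : 0 ≤ x := by linarith
  obtain ⟨N, hN⟩ : ∃ N : ℕ, N = ⌊x⌋₊ := ⟨_, rfl⟩
  have hNx : (N : ℝ) ≤ x := by rw [hN]; exact Nat.floor_le hx0
  have hxN : x < N + 1 := by rw [hN]; exact Nat.lt_floor_add_one x
  have hNN : N₀ ≤ N := by
    have h1 : (N₀ : ℝ) < N + 1 := by linarith
    have h2 : N₀ < N + 1 := by exact_mod_cast h1
    omega
  obtain ⟨⟨h1, h2⟩, h3⟩ := hN₀ N hNN
  have hHN : H ≤ N := by
    have h4 : (H : ℝ) < N + 1 := by linarith
    have h5 : H < N + 1 := by exact_mod_cast h4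
    omega
  have hN3 : (3 : ℝ) ≤ N := by exact_mod_cast h3
  have hL : 0 < Real.log N := Real.log_pos (by linarith)
  have hLx : Real.log N ≤ Real.log x := Real.log_le_log (by linarith) hNx
  have hLx2 : Real.log x ≤ 2 * Real.log N := by
    calc Real.log x ≤ Real.log ((N : ℝ) ^ 2) := Real.log_le_log (by linarith) (by nlinarith)
      _ = 2 * Real.log N := by rw [Real.log_pow]; norm_num
  have hLx0 : 0 < Real.log x := by linarith
  have hH0 : (0 : ℝ) < H := by exact_mod_cast hH1
  have h4 := h1 H hH1 hHN (large (k + 1) (4 ^ (k + 1) + ε) x H) (fun D hD => by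
    unfold large at hD
    rw [mem_filter, ← CT_eq, count_eq, ← hN] at hD
    obtain ⟨d1, d2, d3⟩ := hD
    refine ⟨d1, adm_of_ne d2, lt_of_le_of_lt ?_ d3⟩
    have h5 := h2 x hNx hxN.le
    have h6 := mul_le_mul_of_nonneg_left h5 (CT_nonneg (insert 0 D))
    calc (4 ^ (k + 1) + ε / 2) * CT (Pool.Agent.Y822.pat D) * (N / Real.log N ^ (k + 2))
        = CT (insert 0 D) * ((4 ^ (k + 1) + ε / 2) * (N / Real.log N ^ (k + 2))) := by
          unfold Pool.Agent.Y822.pat
          ring
      _ ≤ CT (insert 0 D) * ((4 ^ (k + 1) + ε) * (x / Real.log x ^ (k + 2))) := h6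
      _ = _ := by ring)
  refine h4.trans ?_
  have h5 : max (Real.log N / H) (1 / Real.log N) ≤ 2 * max (Real.log x / H) (1 / Real.log x) := by
    have e1 : Real.log N / H ≤ Real.log x / H := div_le_div_of_nonneg_right hLx hH0.le
    have e2 : 1 / Real.log N ≤ 2 * (1 / Real.log x) := by
      rw [mul_one_div, div_le_div_iff₀ hL hLx0]
      linarith
    have e3 : 0 ≤ Real.log x / H := by positivity
    refine max_le ?_ ?_
    · have := le_max_left (Real.log x / H) (1 / Real.log x)
      linarith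
    · have := le_max_right (Real.log x / H) (1 / Real.log x)
      linarith
  have h6 : (max (Real.log N / H) (1 / Real.log N)) ^ c ≤
      2 ^ c * (max (Real.log x / H) (1 / Real.log x)) ^ c := by
    have h7 : 0 ≤ max (Real.log x / H) (1 / Real.log x) := le_max_of_le_left (by positivity)
    rw [← Real.mul_rpow (by norm_num) h7]
    exact Real.rpow_le_rpow (le_max_of_le_left (by positivity)) h5 hc.le
  calc C * (max (Real.log N / H) (1 / Real.log N)) ^ c * (H : ℝ) ^ (k + 1)
      ≤ C * (2 ^ c * (max (Real.log x / H) (1 / Real.log x)) ^ c) * (H : ℝ) ^ (k + 1) := by gcongr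
    _ = _ := by ring

end Pool.Agent.Results.MP_485179_nt.ExponentialConstant
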