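import Mathlib
import Pool.Agent.J4.H38.SR3.Alm
import Pool.Agent.J4.H38.SR.Rl

/-!
# Primes with shifts having at most two prime factors, for almost all sets of very short shifts

There is an absolute constant `c > 0` such that for every `k` and `ε > 0`: if `Λ log x ≤ H ≤ x`, where `Λ` is large
in terms of `k, ε`, then for all but at most `ε H ^ k` of the `k`-element sets `D ⊆ [1, H]` with `𝔖({0} ∪ D) ≠ 0` there
are at least `c ^ k 𝔖({0} ∪ D) x / (log x) ^ (k + 1)` primes `p ≤ x` such that every `p + d`, `d ∈ D`, has at most two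
prime factors, all of them at least `x ^ (1/7)`.

Method.  Richert's weighted sieve of level `111/200 > 1/2`, applied one shift after the other to the weights
`1_{p prime} ∏ (indicator of the almost primes or of the numbers without prime factors below x ^ κ)`.  The moduli are
well factorable in a weak sense, or at most `x ^ (51/100)`.  The error terms are controlled for almost all sets of
shifts of an interval of length `Λ log x` by a large sieve (Bessel) inequality, in which the number of pairs of shifts is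
averaged over the sets of shifts; the correlations of two shifts, sieved by the small primes, are bounded beyond the
level `1/2` by Poisson summation and bounds for trilinear Kloosterman sums (`Pool.Agent.J4.H38.SR3.windows`).
-/

set_option autoImplicit false

open Finset

namespace Pool.Agent.Results.MP_485179_nt.TwoPrimeFactors

/-- the number of residue classes modulo `p` occupied by `T` -/
def nu (T : Finset ℕ) (p : ℕ) : ℕ := (T.image (· % p)).card

/-- the factor at `p` of the singular series -/
noncomputable def loc (T : Finset ℕ) (p : ℕ) : ℝ :=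
  (1 - (nu T p : ℝ) / p) / (1 - 1 / (p : ℝ)) ^ T.card

/-- the singular series of `T` -/
noncomputable def 𝔖 (T : Finset ℕ) : ℝ := ∏' p : Nat.Primes, loc T p

open Classical in
/-- the number of the primes `p ≤ x` such that every `p + d`, `d ∈ D`, has at most two prime factors (counted with
multiplicity), all of them at least `x ^ (1/7)` -/
noncomputable def almost (x : ℕ) (D : Finset ℕ) : ℕ :=
  ((Icc 1 x).filter (fun p => p.Prime ∧ ∀ d ∈ D, (p + d).primeFactorsList.length ≤ 2 ∧
    ∀ q ∈ (p + d).primeFactors, (x : ℝ) ^ (1 / 7 : ℝ) ≤ q)).card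

open Classical in
/-- the `k`-element sets `D ⊆ [1, H]` with `𝔖({0} ∪ D) ≠ 0` and `almost x D < B 𝔖({0} ∪ D) x / (log x) ^ (k + 1)` -/
noncomputable def small (k : ℕ) (B : ℝ) (x H : ℕ) : Finset (Finset ℕ) :=
  ((Icc 1 H).powersetCard k).filter (fun D => 𝔖 (insert 0 D) ≠ 0 ∧
    (almost x D : ℝ) < B * 𝔖 (insert 0 D) * (x / Real.log x ^ (k + 1)))

open Pool.Agent.H387R2.Uni Pool.Agent.J4.H38.SR Pool.Agent.J4.H38.SR3 Filter

theorem CT_eq (T : Finset ℕ) : CT T = 𝔖 T := rfl

theorem almost_eq {x : ℕ} {D : Finset ℕ} : almost x D = pi2 D x := rfl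

/-- The products `𝔖 T` converge and are positive for admissible `T`.  There is a constant `c > 0` such that for all
`k ≥ 1` and `ε > 0` there are `Λ` and `x₀` with the following property: for all integers `x ≥ x₀` and all integers `H`
with `Λ log x ≤ H ≤ x`, for all but at most `ε H ^ k` of the `k`-element sets `D ⊆ [1, H]` with `𝔖({0} ∪ D) ≠ 0`
there are at least `c ^ k 𝔖({0} ∪ D) x / (log x) ^ (k + 1)` primes `p ≤ x` such that every `p + d`, `d ∈ D`, has at most
two prime factors, all of them at least `x ^ (1/7)`. -/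
theorem result :
    (∀ T : Finset ℕ, HasProd (fun p : Nat.Primes => loc T p) (𝔖 T) ∧
      ((∀ p : ℕ, p.Prime → nu T p < p) → 0 < 𝔖 T)) ∧
    ∃ c : ℝ, 0 < c ∧ ∀ k : ℕ, 1 ≤ k → ∀ ε : ℝ, 0 < ε → ∃ Λ x₀ : ℝ, ∀ x : ℕ, x₀ ≤ x →
      ∀ H : ℕ, Λ * Real.log x ≤ H → H ≤ x →
      ((small k (c ^ k) x H).card : ℝ) ≤ ε * (H : ℝ) ^ k := by
  classical
  refine ⟨fun T => ⟨CT_hasProd T, fun hT => CT_pos_of_adm hT⟩, ?_⟩
  obtain ⟨c, hc, hmain⟩ := almost2
  refine ⟨c, hc, fun k hk ε hε => ?_⟩
  obtain ⟨k, rfl⟩ : ∃ j, k = j + 1 := ⟨k - 1, by omega⟩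
  obtain ⟨Λ, hΛ, hmain⟩ := hmain k ε hε
  obtain ⟨N₀, hN₀⟩ := eventually_atTop.1 hmain
  refine ⟨Λ, N₀, fun x hx H hH1 hH2 => ?_⟩
  refine hN₀ x (by exact_mod_cast hx) H hH1 hH2 (small (k + 1) (c ^ (k + 1)) x H) fun D hD => ?_
  unfold small at hD
  rw [mem_filter, ← CT_eq, almost_eq] at hD
  obtain ⟨d1, d2, d3⟩ := hD
  exact ⟨d1, adm_of_ne d2, d3⟩

end Pool.Agent.Results.MP_485179_nt.TwoPrimeFactors
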